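import Pool.Agent.R887.PsF

/-!
An inequality between the canonical degrees of two varieties with a multi-valued rational map.
-/

set_option autoImplicit false

open FF Pool.Agent.W602.GT Pool.Agent.Y172 Pool.Agent.R887

/-- Let `X` be a projective variety of dimension `n ≥ 1` with canonical singularities, with generic
point `y`, and `j ≤ n`.

(1) Let `X'` be any normal projective variety of dimension `n`, with generic point `y'`, `Δ'` an
effective `ℚ`-divisor on `X'`, and `X' ← X'' → X` a multi-valued map: a variety `X''` with a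
generically finite rational map `p` to `X'`, unramified over the prime divisors of `X'` with
coefficient less than one in `Δ'`, and a dominant rational map `f` to `X`. If the positive degree
`⟨K_X' + Δ'⟩ · H' ^ (n - 1)` is at most `μ` and the intersection number
`(f ^* H) ^ (n - j) · (p ^* H') ^ j` is at most `c deg f`, then the positive product
`⟨K_X ^ j⟩ · H ^ (n - j)` is at most `c μ ^ j`.

(2) If for all `ε > 0` there are such `X'`, `Δ'`, `X''`, `p`, `f` with `c μ ^ j ≤ ε`, then the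
numerical dimension of `K_X` is less than `j`. -/
theorem Pool.Agent.Results.MP_fa3f7f_ag.CanonicalDegreeInequality.result
    {K : Type} [Field K] [Algebra ℂ K] {N n : ℕ} {y : Fin (N + 1) → K} (hy : NormalModel y)
    (hn : Algebra.trdeg ℂ K = n) (hn0 : 0 < n) (hcan : Canonical y n) {j : ℕ} (hj : j ≤ n) :
    (∀ (K' L : Type) [Field K'] [Algebra ℂ K'] [Field L] [Algebra ℂ L] (N' : ℕ)
      (y' : Fin (N' + 1) → K') (Δ' : Place ℂ K' → ℚ) (φ : K →ₐ[ℂ] L) (ψ : K' →ₐ[ℂ] L) (μ c : ℝ),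
      NormalModel y' → Algebra.trdeg ℂ K' = n → Effective y' Δ' → 0 ≤ μ →
      PositiveProductLe y' n Δ' 1 μ → FiniteDimensional ψ.fieldRange L →
      UnramifiedOutside ψ y' {P | 1 ≤ Δ' P} → MultiDegreeLe φ ψ y y' (n - j) j c →
      PositiveProductLe y n 0 j (c * μ ^ j)) ∧
    ((∀ ε : ℝ, 0 < ε → ∃ (K' L : Type) (_ : Field K') (_ : Algebra ℂ K') (_ : Field L)
      (_ : Algebra ℂ L) (N' : ℕ) (y' : Fin (N' + 1) → K') (Δ' : Place ℂ K' → ℚ)
      (φ : K →ₐ[ℂ] L) (ψ : K' →ₐ[ℂ] L) (μ c : ℝ), NormalModel y' ∧ Algebra.trdeg ℂ K' = n ∧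
      Effective y' Δ' ∧ 0 ≤ μ ∧ PositiveProductLe y' n Δ' 1 μ ∧
      FiniteDimensional ψ.fieldRange L ∧ UnramifiedOutside ψ y' {P | 1 ≤ Δ' P} ∧
      MultiDegreeLe φ ψ y y' (n - j) j c ∧ c * μ ^ j ≤ ε) → NumDimLt y n 0 j) := by
  have h1 : ∀ (K' L : Type) [Field K'] [Algebra ℂ K'] [Field L] [Algebra ℂ L] (N' : ℕ)
      (y' : Fin (N' + 1) → K') (Δ' : Place ℂ K' → ℚ) (φ : K →ₐ[ℂ] L) (ψ : K' →ₐ[ℂ] L) (μ c : ℝ),
      NormalModel y' → Algebra.trdeg ℂ K' = n → Effective y' Δ' → 0 ≤ μ →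
      PositiveProductLe y' n Δ' 1 μ → FiniteDimensional ψ.fieldRange L →
      UnramifiedOutside ψ y' {P | 1 ≤ Δ' P} → MultiDegreeLe φ ψ y y' (n - j) j c →
      PositiveProductLe y n 0 j (c * μ ^ j) := by
    intro K' L _ _ _ _ N' y' Δ' φ ψ μ c hy' hn' hΔ' hμ hpp hψ hun hc
    exact (psef_degree_le hy' hn' hn0 hΔ' hμ hpp hy hn hcan.lc φ ψ hψ hun
      (hcan.multi hy hy' hn hn' φ ψ hψ _) hj hc).2
  refine ⟨h1, fun h => PositiveProductLe.numDimLt (PositiveProductLe.of_forall fun ε hε => ?_)⟩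
  obtain ⟨K', L, _, _, _, _, N', y', Δ', φ, ψ, μ, c, hy', hn', hΔ', hμ, hpp, hψ, hun, hc, hcε⟩ :=
    h ε hε
  exact ⟨_, by linarith, h1 K' L N' y' Δ' φ ψ μ c hy' hn' hΔ' hμ hpp hψ hun hc⟩
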