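import Pool.Agent.R887.Can

/-!
The numerical dimension of the canonical divisor is bounded by the growth of the degrees of the
rational maps from a fixed variety.
-/

set_option autoImplicit false

open FF Pool.Agent.W602.GT Pool.Agent.Y172 Pool.Agent.R887

/-- Let `X` be a projective variety of dimension `n` with canonical singularities, with generic
point `y`, and `X'` a normal projective variety of dimension `n`, with generic point `y'`, and
`1 ≤ j ≤ n`. Suppose that for all `ε > 0` there is a dominant rational map `f : X' ⇢ X` such that
the intersection number of `n - j` pull backs of hyperplane sections of `X` and `j` hyperplane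
sections of `X'` is at most `ε deg f`. Then the numerical dimension of `K_X` is less than `j`. (By
`Pool.Agent.R887.kappa_lt` the Kodaira dimension is then less than `j`, too: no `j` quotients of
pluricanonical forms are algebraically independent.) -/
theorem Pool.Agent.Results.MP_fa3f7f_ag.DegreeGrowthDimension.result
    {K K' : Type} [Field K] [Algebra ℂ K] [Field K'] [Algebra ℂ K'] {N N' n : ℕ}
    {y : Fin (N + 1) → K} {y' : Fin (N' + 1) → K'} (hy : NormalModel y) (hy' : NormalModel y')
    (hn : Algebra.trdeg ℂ K = n) (hn' : Algebra.trdeg ℂ K' = n) (hcan : Canonical y n)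
    {j : ℕ} (hj0 : 1 ≤ j) (hj : j ≤ n)
    (h : ∀ ε : ℝ, 0 < ε → ∃ φ : K →ₐ[ℂ] K', MixedDegreeLe φ y y' (n - j) j ε) :
    NumDimLt y n 0 j := by
  refine numdim hy hy' hn hn' (by omega) hcan.lc hj Set.finite_empty fun ε hε => ?_
  obtain ⟨φ, hφ⟩ := h ε hε
  exact ⟨φ, hcan.pullBackLe hy hy' hn hn' φ, hφ⟩
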