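import Pool.Agent.R882.CDet

/-!
# The minimal model conjecture for the images of small degree of smooth complete intersections in
products of projective lines

Let `V` be a smooth complete intersection, of any codimension and of dimension `n ≥ 1`, of
hypersurfaces `F_k = 0` of multidegrees `(d_{k,i})`, `k ∈ κ`, in the product of the projective lines
with the coordinates `x_i`, `i ∈ ι`, where `Σ_k d_{k,i} = m_i + 2`, so that `K_V = O(m_i, i ∈ ι)`,
`m_i ≥ 0`. Let `x_{i0}` be one of the coordinates, let `V'` be the image of `V` under the projection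
which forgets `x_{i0}`, and let `M ≤ m_i` for all `i ≠ i0`; nothing is assumed about the degrees in
`x_{i0}`. Suppose that `V'` is uniruled; for hypersurfaces `V` this is always true, because `V'` is
the product of `n` projective lines.

Let `W` be any smooth projective variety with a dominant rational map `V ⇢ W` of degree `r`; nothing
is assumed about the map (it need not be a quotient by a group, and its ramification is arbitrary)
or about `W`. The theorem: if `2 r ≤ M + 1` then either `K_W` is big, or `V ⇢ W` factors through
`V ⇢ V'` and `W` is uniruled. So in this range `K_W` is pseudo-effective if and only if it is big,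
and the minimal model conjecture holds for `W` by the theorems of Birkar, Cascini, Hacon and McKernan.
More precisely the following are equivalent if `r ≤ M + 1`: `p_g(W) = 0`; `κ(W) = -∞`; `K_W` is not
pseudo-effective; `W` is uniruled; `V ⇢ W` factors through `V ⇢ V'`; and if `2 r ≤ M + 1` they are
equivalent to: `K_W` is not big.

Proof. Let `E` be the field generated by the coordinates `x_j`, `j ≠ i0`, let `L` be the function field
of `W`, and let `F` be the field generated by `E` and `L`. If `F ≠ E` then the degree of the function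
field `K` of `V` over `F` is at most half of its degree over `E`, which is at most `m_{i0} + 2`; so some
residue form `x_{i0} ^ a ω`, `a ≤ m_{i0}`, has a nonzero trace `η` to `F`. The traces of the forms
`A(x_j, j ≠ i0) η` to `L`, where the degree of `A` is at most `M` in all variables, are canonical
forms of `W`; they are not all zero, because `M + 1` points impose independent conditions on the
polynomials of degree `M`, and if `2 [F : L] ≤ M + 1` then their ratios generate a field over which
`L` is algebraic.

The function-field language of the starting repository is used: `K` is the function field of `V`,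
and `L`, a subfield of `K`, the function field of `W`. A canonical form (`IsPluri 1`) on a variety
of dimension `n` is a function of `n` rational vector fields; it is regular at the prime divisor `P`
(`Place`, `Divisorial`, `RegAt`) if its value on vector fields which are regular at `P` is regular
at `P`. `KodGe ℂ L n (fun _ => False) 0` says that `κ(W) ≥ 0`, `Psef ℂ L n (fun _ => False)` that
`K_W` is pseudo-effective, `GeneralType ℂ L n` that `K_W` is big (`Pool/Agent/W602/GT`),
`IsUniruled ℂ L n` that `W` is uniruled (`Pool/Agent/W619/PQ/Defs.lean`). `chart d S F`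
(`Pool/Agent/R882/CRes.lean`) is the equation of the closure of `F = 0`, as a divisor of multidegree
`d`, in the affine chart of the product of projective lines with the coordinates `z_i = 1 / x_i`,
`i ∈ S`, and `z_i = x_i`, `i ∉ S`.
-/

set_option autoImplicit false
set_option linter.overlappingInstances false
set_option linter.unusedDecidableInType false
set_option linter.unusedFintypeInType false

open FF MvPolynomial Pool.Agent.W602.GT
open Pool.Agent.W619.PQ (IsUniruled)
open Pool.Agent.R882.CI (chart)

namespace Pool.Agent.Results.MP_fa3f7f_ag.ImagesDichotomy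

section

variable {κ ι : Type} [Fintype ι] [DecidableEq ι]

/-- The closures of the hypersurfaces `F k = 0`, as divisors of multidegrees `d k`, in the product
of projective lines meet transversally: in each affine chart, the gradients of the equations are
linearly independent at all common zeros. -/
def IsSmooth (d : κ → ι → ℕ) (F : κ → MvPolynomial ι ℂ) : Prop :=
  ∀ (S : Finset ι) (z : ι → ℂ), (∀ k, eval z (chart (d k) S (F k)) = 0) →
    LinearIndependent ℂ (fun (k : κ) (i : ι) => eval z (pderiv i (chart (d k) S (F k))))

variable {K : Type} [Field K] [Algebra ℂ K]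

/-- `x` is the generic point of an irreducible component, of dimension `n`, of the complete
intersection `F k = 0`, `k ∈ κ`, and `K` is its function field. -/
structure IsGenericPoint (n : ℕ) (F : κ → MvPolynomial ι ℂ) (x : ι → K) : Prop where
  zero : ∀ k, aeval x (F k) = 0
  gen : IntermediateField.adjoin ℂ (Set.range x) = ⊤
  dim : Algebra.trdeg ℂ K = n

end

/-- The geometric genus is zero: the only canonical form which is regular at all prime divisors is
`0`. -/
def GenusZero (L : Type) [Field L] [Algebra ℂ L] (n : ℕ) : Prop :=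
  ∀ ω : (Fin n → Derivation ℂ L L) → L, IsPluri 1 ω →
    (∀ P : Place ℂ L, Divisorial n P → RegAt P ω) → ∀ D, ω D = 0

/-- The map `V ⇢ W` factors through the projection `V ⇢ V'` which forgets the coordinate `x_i`: all
elements of the subfield `L` of `K` are rational functions of the other coordinates. -/
def FactorsThrough (L : Type) [Field L] {K : Type} [Field K] [Algebra ℂ K] [Algebra L K] {ι : Type}
    (x : ι → K) (i : ι) : Prop :=
  ∀ f : L, algebraMap L K f ∈ IntermediateField.adjoin ℂ (x '' {i}ᶜ)

/-- if `V` is a hypersurface then the image of the projection is uniruled -/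
theorem uniruled_rest {K : Type} [Field K] [Algebra ℂ K] {n : ℕ} (hn : 1 ≤ n)
    (hK : Algebra.trdeg ℂ K = n) {ι : Type} [Fintype ι] [DecidableEq ι]
    (hcard : Fintype.card ι = n + 1) {x : ι → K} {i0 : ι}
    (halg : ∀ τ : K, IsAlgebraic (IntermediateField.adjoin ℂ (x '' {i0}ᶜ)) τ) :
    IsUniruled ℂ (IntermediateField.adjoin ℂ (x '' {i0}ᶜ)) n := by
  classical
  obtain ⟨σ⟩ : Nonempty (Fin n ≃ {j // j ≠ i0}) := ⟨Fintype.equivOfCardEq (by
    rw [Fintype.card_fin, Fintype.card_subtype_compl, Fintype.card_subtype_eq, hcard]
    omega)⟩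
  have hrange : Set.range (fun a : Fin n => x (σ a)) = x '' {i0}ᶜ := by
    ext z
    constructor
    · rintro ⟨a, rfl⟩
      exact ⟨_, (σ a).2, rfl⟩
    · rintro ⟨j, hj, rfl⟩
      exact ⟨σ.symm ⟨j, hj⟩, by simp⟩
  have hind : AlgebraicIndependent ℂ (fun a : Fin n => x (σ a)) := by
    have h1 : ∀ τ : K, IsAlgebraic (IntermediateField.adjoin ℂ
        (Set.range fun a : Fin n => x (σ a))) τ := by
      rw [hrange]
      exact halg
    have h2 := Pool.Agent.W619.PQ.alg_adjoin h1
    exact (Algebra.IsAlgebraic.isTranscendenceBasis_of_lift_le_trdeg_of_finite ℂ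
      (fun a : Fin n => x (σ a)) (by
        rw [hK]
        simp)).1
  obtain ⟨f, hf⟩ : ∃ f : Fin n → IntermediateField.adjoin ℂ (x '' {i0}ᶜ),
      ∀ a, (f a : K) = x (σ a) :=
    ⟨fun a => ⟨x (σ a), IntermediateField.subset_adjoin ℂ _ ⟨_, (σ a).2, rfl⟩⟩, fun _ => rfl⟩
  have hfK : (IntermediateField.adjoin ℂ (x '' {i0}ᶜ)).val ∘ f = fun a => x (σ a) :=
    funext hf
  refine Pool.Agent.Y184.NT.uniruled_of_rational hn (f := f) ?_ ?_
  · rw [← AlgHom.algebraicIndependent_iff
      (IntermediateField.adjoin ℂ (x '' {i0}ᶜ)).val Subtype.val_injective, hfK]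
    exact hind
  · apply IntermediateField.map_injective (IntermediateField.adjoin ℂ (x '' {i0}ᶜ)).val
    rw [IntermediateField.adjoin_map, ← Set.range_comp, hfK, hrange,
      ← AlgHom.fieldRange_eq_map, IntermediateField.fieldRange_val]

/-- **General type or uniruled.** Let `V` be a component of a smooth complete intersection of
dimension `n ≥ 1` of hypersurfaces of multidegrees `d k`, `k ∈ κ`, in the product of the projective
lines with the coordinates `x i`, `i ∈ ι`, `Σ_k d k i = m i + 2`, `M ≤ m i` for `i ≠ i0`. Suppose that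
`V` is a hypersurface, or that the image `V'` of the projection which forgets `x i0` is uniruled. Let
`V ⇢ W` be a dominant rational map of degree `r` to a smooth projective variety `W` with function
field `L`. If `r ≤ M + 1` then `p_g(W) = 0` if and only if `κ(W) = -∞`, if and only if `K_W` is not
pseudo-effective, if and only if `W` is uniruled, if and only if `V ⇢ W` factors through `V ⇢ V'`. If
`2 r ≤ M + 1` then these conditions are also equivalent to: `K_W` is not big. -/
theorem result {n M : ℕ} (hn : 1 ≤ n) {κ ι : Type} [Fintype κ] [Fintype ι] [DecidableEq ι]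
    (hcard : Fintype.card ι = n + Fintype.card κ) {d : κ → ι → ℕ} {m : ι → ℕ}
    (hm : ∀ i, ∑ k, d k i = m i + 2) {i0 : ι} (hM : ∀ i, i ≠ i0 → M ≤ m i)
    {F : κ → MvPolynomial ι ℂ} (hF : ∀ k i, (F k).degreeOf i ≤ d k i) (hs : IsSmooth d F)
    {K : Type} [Field K] [Algebra ℂ K] {x : ι → K} (hx : IsGenericPoint n F x)
    (hV' : Fintype.card κ = 1 ∨ IsUniruled ℂ (IntermediateField.adjoin ℂ (x '' {i0}ᶜ)) n)
    (L : Type) [Field L] [Algebra ℂ L] [Algebra L K] [IsScalarTower ℂ L K]
    [FiniteDimensional L K] :
    (Module.finrank L K ≤ M + 1 →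
      [GenusZero L n, ¬ KodGe ℂ L n (fun _ => False) 0, ¬ Psef ℂ L n (fun _ => False),
        IsUniruled ℂ L n, FactorsThrough L x i0].TFAE) ∧
    (2 * Module.finrank L K ≤ M + 1 →
      [GenusZero L n, ¬ KodGe ℂ L n (fun _ => False) 0, ¬ Psef ℂ L n (fun _ => False),
        ¬ GeneralType ℂ L n, IsUniruled ℂ L n, FactorsThrough L x i0].TFAE) := by
  classical
  have hessK : Algebra.EssFiniteType ℂ K := by
    rw [← IntermediateField.fg_top_iff]
    exact ⟨Finset.univ.image x, by
      rw [Finset.coe_image, Finset.coe_univ, Set.image_univ, hx.gen]⟩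
  have hxE : ∀ j, j ≠ i0 → x j ∈ IntermediateField.adjoin ℂ (x '' {i0}ᶜ) := fun j hj =>
    IntermediateField.subset_adjoin ℂ _ ⟨j, hj, rfl⟩
  -- the last coordinate is algebraic over the others
  have halg : IsAlgebraic (IntermediateField.adjoin ℂ (x '' {i0}ᶜ)) (x i0) := by
    by_contra htr
    have hR : Ruled ℂ K := ⟨IntermediateField.adjoin ℂ (x '' {i0}ᶜ), x i0, htr,
      Pool.Agent.R882.CI.adjoin_top hx.gen hxE⟩
    have h1 : IsUniruled ℂ K n := Pool.Agent.TH466.QG.uniruled_below (F := K) (K := K) hx.dim hR
    apply (Pool.Agent.W619.Y.uniruled_neg n hx.dim h1).1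
    rw [← Pool.Agent.TH466.QG.psef_iff n]
    obtain ⟨e, C, hC, hdet⟩ := Pool.Agent.R882.CI.exists_form hs hcard hx.zero hx.gen
    obtain ⟨z, D, hz, hD⟩ := Pool.Agent.Y172.exists_crd (k := ℂ) (K := K) hx.dim
    have hne := hdet D (Pool.Agent.Y184.NT.lift_ind (L := K) (K := K) hD fun _ _ => rfl)
    have hreg0 : ∀ P : Place ℂ K, RegAt P (fun D : Fin n → Derivation ℂ K K =>
        (Pool.Agent.R882.CI.cmat e C fun j i => D j (x i)).det) := by
      intro P
      have h2 := Pool.Agent.R882.CI.ci_reg hF hs e hx.zero hC (a := fun _ => 0) (fun i => by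
        rw [hm i]
        omega) P
      simpa using h2
    have hk : KodGe ℂ K n (fun _ => False) 0 :=
      ⟨1, one_pos, fun _ => fun D =>
        (Pool.Agent.R882.CI.cmat e C fun j i => D j (x i)).det, fun _ =>
        ⟨Pool.Agent.R882.CI.cmat_pluri e C x, fun P hP D' hD' => hreg0 P D' fun i =>
        Pool.Agent.TH466.QG.derReg_of_log (hD' i), fun P _ _ => hreg0 P⟩, D, hne,
        algebraicIndependent_empty_type⟩
    exact psef_of_kodGe hk
  have hfin : FiniteDimensional (IntermediateField.adjoin ℂ (x '' {i0}ᶜ)) K :=
    Pool.Agent.R882.CI.fin_of_alg hx.gen hxE halg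
  have hE : IsUniruled ℂ (IntermediateField.adjoin ℂ (x '' {i0}ᶜ)) n := by
    rcases hV' with h | h
    · exact uniruled_rest hn hx.dim (by rw [hcard, h]) fun τ =>
        (Algebra.IsIntegral.isIntegral τ).isAlgebraic
    · exact h
  obtain ⟨σ⟩ : Nonempty (Fin (Fintype.card {j // j ≠ i0}) ≃ {j // j ≠ i0}) :=
    ⟨(Fintype.equivFin _).symm⟩
  have hrange := Pool.Agent.R882.CI.rest_range σ x
  have hbase : Pool.Agent.R882.Over.IsBase n (Pool.Agent.R882.CI.rest σ x) :=
    ⟨hessK, hx.dim, ⟨0, by rw [Pool.Agent.R882.CI.rest, Fin.cons_zero]⟩, by rw [hrange]; exact hfin⟩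
  have hpos : ∀ s, s ≤ M + 1 → Pool.Agent.R882.Over.Positive n (Pool.Agent.R882.CI.rest σ x) s := by
    intro s hs' F' hF'
    rw [hrange] at hF'
    refine ⟨M, ?_, Pool.Agent.R882.CI.detects hx.dim hm hM hF hs hcard hx.zero hx.gen halg σ F' hF'⟩
    have hfinF : FiniteDimensional F' K := by
      refine Pool.Agent.R882.CI.fin_of_alg hx.gen (fun j hj => hF'.le (hxE j hj)) ?_
      obtain ⟨p, hp0, hp⟩ := halg
      refine ⟨p.map (IntermediateField.inclusion hF'.le).toRingHom, ?_, ?_⟩
      · exact (Polynomial.map_ne_zero_iff (IntermediateField.inclusion hF'.le).injective).2 hp0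
      · rw [Polynomial.aeval_def, Polynomial.eval₂_map]
        rw [Polynomial.aeval_def] at hp
        exact hp
    have h1 : 0 < Module.finrank F' K := Module.finrank_pos
    nlinarith
  obtain ⟨h1, h2⟩ := Pool.Agent.R882.Over.over_uniruled hn hbase (by rw [hrange]; exact hE) L
  have hfac : Pool.Agent.R882.Over.FactorsThrough L (Pool.Agent.R882.CI.rest σ x) ↔
      FactorsThrough L x i0 := by
    constructor
    · intro h f
      rw [← hrange]
      exact h f
    · intro h f
      rw [hrange]
      exact h f
  have key : Module.finrank L K ≤ M + 1 →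
      [GenusZero L n, ¬ KodGe ℂ L n (fun _ => False) 0, ¬ Psef ℂ L n (fun _ => False),
        IsUniruled ℂ L n, FactorsThrough L x i0].TFAE := by
    intro hr
    have h3 := h1 (hpos _ hr)
    rw [hfac] at h3
    exact h3
  refine ⟨key, fun hr => ?_⟩
  have h3 := key (by omega)
  have h4 := h2 (hpos _ hr)
  rw [hfac] at h4
  tfae_have 1 ↔ 2 := h3.out 0 1
  tfae_have 1 ↔ 3 := h3.out 0 2
  tfae_have 1 ↔ 5 := h3.out 0 3
  tfae_have 1 ↔ 6 := h3.out 0 4
  tfae_have 4 ↔ 6 := h4
  tfae_finish

end Pool.Agent.Results.MP_fa3f7f_ag.ImagesDichotomy
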